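import Mathlib
import Pool.Agent.H255Z.Quad.Main

open NumberField Pool.Agent.H255Z.Quad

namespace Pool.Agent.Results.MP_44a246_nt.AQuadraticPoints

/-- Quadratic points `z` of the projective line, with `K = ℚ(z)`, whose height relative to `K` is
at most `X` and with `N + log |disc K| ≤ lam * h + C`, where the truncated counting function `N`
and the logarithmic height `h` are relative to `K`. -/
def Exceptional {q : ℕ} (α : Fin q → ℤ × ℤ) (S : Finset ℕ) (lam C : ℝ) (X : ℕ) : Set ℂ :=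
  {z | ∃ (K : IntermediateField ℚ ℂ) (_ : NumberField K) (β : K), (β : ℂ) = z ∧
    Module.finrank ℚ K = 2 ∧ β ∉ Set.range (algebraMap ℚ K) ∧ Height.mulHeight₁ β ≤ X ∧
    truncCount α S β + Real.log |(discr K : ℝ)| ≤ lam * Height.logHeight₁ β + C}

theorem result (q : ℕ) (hq : 2 ≤ q) (α : Fin q → ℤ × ℤ)
    (hcop : ∀ l, IsCoprime (α l).1 (α l).2)
    (hne : ∀ i j, i ≠ j → (α i).1 * (α j).2 - (α i).2 * (α j).1 ≠ 0)
    (S : Finset ℕ) (hS : ∀ p ∈ S, p.Prime) (lam C η : ℝ) (hlam : 0 ≤ lam) (hη : 0 < η) :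
    ∃ D : ℝ, ∀ X : ℕ, 1 ≤ X → (Exceptional α S lam C X).Finite ∧
      ((Exceptional α S lam C X).ncard : ℝ) ≤ D * (X : ℝ) ^ (3 * lam / (q + 1) + η) := by
  obtain ⟨D, hD⟩ := mainQ hq α hcop hne S hS lam C η hlam hη
  exact ⟨D, fun X hX => finite_and_card fun T hT => hD X hX T fun z hz => hT hz⟩

end Pool.Agent.Results.MP_44a246_nt.AQuadraticPoints
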